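import Pool.Agent.Lib.helper25.RelGr
import Pool.Agent.Lib.lead.CXBase

namespace Pool.Agent.H.MP_143e72_lc

open Pool.Agent.Lib.CX SimpleGraph Finset

variable {K : Type} [DecidableEq K]

theorem cont (vs ws : List K) (r s : K × K → Bool) : (relGr vs r).G ⊑ (relGr ws s).G ↔
    ∃ F : K → K, (∀ x ∈ vs, F x ∈ ws) ∧ (∀ x ∈ vs, ∀ y ∈ vs, F x = F y → x = y) ∧
      ∀ x ∈ vs, ∀ y ∈ vs, x ≠ y → r (x, y) = true → s (F x, F y) = true ∨ s (F y, F x) = true := by
  constructor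
  · rintro ⟨c⟩
    choose N hN using fun x => (relNm_range vs r x).1
    refine ⟨fun x => if h : x ∈ vs then relNm ws s (c (N x h)) else x, fun x h => ?_, fun x h y k e => ?_,
      fun x h y k ne e => ?_⟩
    · simp only [h, dite_true]; exact (relNm_range ws s _).2 ⟨_, rfl⟩
    · simp only [h, k, dite_true] at e
      rw [← hN x h, ← hN y k, c.injective (relNm_inj ws s e)]
    · simp only [h, k, dite_true]
      exact ((relGr_adj _ _ _ _).1 (c.toHom.map_rel ((relGr_adj _ _ _ _).2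
        (by rw [hN x h, hN y k]; exact ⟨ne, .inl e⟩)))).2
  · rintro ⟨F, a, b, c⟩
    have m := fun u => (relNm_range vs r _).2 ⟨u, rfl⟩
    choose N hN using fun u => (relNm_range ws s _).1 (a _ (m u))
    have i : Function.Injective N := fun u v e => relNm_inj vs r (b _ (m u) _ (m v) (by rw [← hN, ← hN, e]))
    refine ⟨⟨⟨N, fun {u v} h => (relGr_adj _ _ _ _).2 ⟨(relNm_inj ws s).ne (i.ne h.ne), ?_⟩⟩, i⟩⟩
    obtain ⟨h1, h | h⟩ := (relGr_adj _ _ _ _).1 h <;> rw [hN, hN]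
    exacts [c _ (m u) _ (m v) h1 h, (c _ (m v) _ (m u) h1.symm h).symm]

def vs (ks : List K) (f : K → ℕ) : List (K × ℕ) := ks.flatMap fun z => (List.range (f z + 1)).map fun i => (z, i)
def R (r : K × K → Bool) (e : (K × ℕ) × (K × ℕ)) : Bool :=
  decide (e.1.2 = 0 ∧ ((e.1.1 = e.2.1 ∧ e.2.2 ≠ 0) ∨ (e.2.2 = 0 ∧ r (e.1.1, e.2.1) = true)))
def ds (ks : List K) (f : K → ℕ) (r : K × K → Bool) : Gr := relGr (vs ks f) (R r)

omit [DecidableEq K] in
theorem mem_vs {ks : List K} {f z i} : (z, i) ∈ vs ks f ↔ z ∈ ks ∧ i ≤ f z := by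
  simp [vs]

theorem leaf {r : K × K → Bool} {x y : K × ℕ} (h : R r (x, y) = true ∨ R r (y, x) = true) (hx : x.2 ≠ 0) :
    y = (x.1, 0) := by
  simp only [R, decide_eq_true_eq, hx, false_and, false_or, or_false] at h
  exact Prod.ext h.2.1 h.1

theorem free (ks : List K) (f : K → ℕ) (r : K × K → Bool) (p : K → K)
    (h : ∀ z w, r (z, w) = true → w = p z ∧ z = p w) : (pathGraph 5).Free (ds ks f r).G := by
  rintro ⟨c⟩
  have a : ∀ i j : Fin 5, i.1 + 1 = j.1 → _ := fun i j e =>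
    ((relGr_adj _ _ _ _).1 (c.toHom.map_rel (pathGraph_adj.2 (.inl e)))).2
  have b : ∀ i j : Fin 5, relNm _ _ (c.toHom i) = relNm _ _ (c.toHom j) → i = j := fun i j e =>
    c.injective (relNm_inj _ _ e)
  have z : ∀ i j k : Fin 5, i.1 + 1 = j.1 → j.1 + 1 = k.1 → (relNm _ _ (c.toHom j)).2 = 0 := fun i j k e e' => by
    by_contra q
    have := b i k ((leaf (a i j e).symm q).trans (leaf (a j k e') q).symm)
    omega
  have z1 := z 0 1 2 rfl rfl
  have z2 := z 1 2 3 rfl rfl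
  have z3 := z 2 3 4 rfl rfl
  have a1 := a 1 2 rfl
  have a2 := a 2 3 rfl
  simp only [R, z1, z2, z3, decide_eq_true_eq, ne_eq, not_true, and_false, false_or, true_and] at a1 a2
  refine absurd (b 1 3 (Prod.ext ?_ (z1.trans z3.symm))) (by decide)
  rw [a1.elim (fun a => (h _ _ a).2) fun a => (h _ _ a).1, a2.elim (fun a => (h _ _ a).1) fun a => (h _ _ a).2]

theorem ds_cont (ks : List K) (f g : K → ℕ) (r s : K × K → Bool) (hf : ∀ z, 2 ≤ f z) :
    (ds ks f r).G ⊑ (ds ks g s).G ↔ ∃ φ : K → K, (∀ z ∈ ks, φ z ∈ ks) ∧ (∀ z ∈ ks, ∀ w ∈ ks, φ z = φ w → z = w) ∧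
      (∀ z ∈ ks, f z ≤ g (φ z)) ∧
      ∀ z ∈ ks, ∀ w ∈ ks, z ≠ w → r (z, w) = true → s (φ z, φ w) = true ∨ s (φ w, φ z) = true := by
  refine (cont _ _ _ _).trans ⟨?_, ?_⟩
  · rintro ⟨F, a, b, c⟩
    have m : ∀ z ∈ ks, ∀ i ≤ f z, (z, i) ∈ vs ks f := fun z h i k => mem_vs.2 ⟨h, k⟩
    have d : ∀ z ∈ ks, ∀ i ≤ f z, i ≠ 0 → _ := fun z h i k e =>
      c _ (m z h 0 (by omega)) _ (m z h i k) (by simp [e.symm]) (by simp [R, e])
    have z0 : ∀ z ∈ ks, (F (z, 0)).2 = 0 := fun z h => by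
      by_contra q
      have := hf z
      simpa using b _ (m z h 1 (by omega)) _ (m z h 2 this)
        ((leaf (d z h 1 (by omega) (by simp)) q).trans (leaf (d z h 2 this (by simp)) q).symm)
    have a1 : ∀ z ∈ ks, (F (z, 0)).1 ∈ ks := fun z h => (mem_vs.1 (a _ (m z h 0 (by omega)))).1
    have a2 : ∀ z ∈ ks, ∀ w ∈ ks, (F (z, 0)).1 = (F (w, 0)).1 → z = w := fun z h w k e => by
      simpa using b _ (m z h 0 (by omega)) _ (m w k 0 (by omega)) (Prod.ext e (by rw [z0 z h, z0 w k]))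
    refine ⟨fun z => (F (z, 0)).1, a1, a2, fun z h => ?_, fun z h w k ne e => ?_⟩
    · have su := surjOn_of_injOn_of_card_le (s := ks.toFinset) (t := ks.toFinset) (fun z => (F (z, 0)).1)
        (by simpa [Set.MapsTo] using a1) (by simpa [Set.InjOn] using a2) le_rfl
      have l : ∀ i ≤ f z, i ≠ 0 → (F (z, i)).2 ≠ 0 := fun i k e q => by
        obtain ⟨w, hw, t⟩ := su (show (F (z, i)).1 ∈ _ by simpa using (mem_vs.1 (a _ (m z h i k))).1)
        have hw : w ∈ ks := by simpa using hw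
        have := b _ (m w hw 0 (by omega)) _ (m z h i k) (Prod.ext t (by rw [z0 w hw, q]))
        simp [e.symm] at this
      have t : ∀ i ≤ f z, i ≠ 0 → (F (z, i)).1 = (F (z, 0)).1 := fun i k e => by
        rw [leaf (d z h i k e).symm (l i k e)]
      have := card_le_card_of_injOn (s := Icc 1 (f z)) (t := Icc 1 (g (F (z, 0)).1)) (fun i => (F (z, i)).2)
        (fun i hi => ?_) fun i hi j hj e => ?_
      · simpa using this
      · simp only [coe_Icc, Set.mem_Icc] at hi ⊢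
        have := (mem_vs.1 (a _ (m z h i hi.2))).2
        rw [t i hi.2 (by omega)] at this
        exact ⟨Nat.pos_of_ne_zero (l i hi.2 (by omega)), this⟩
      · simp only [coe_Icc, Set.mem_Icc] at hi hj
        simpa using b _ (m z h i hi.2) _ (m z h j hj.2)
          (Prod.ext ((t i hi.2 (by omega)).trans (t j hj.2 (by omega)).symm) e)
    · simpa [R, z0 z h, z0 w k] using c _ (m z h 0 (by omega)) _ (m w k 0 (by omega)) (by simp [ne]) (by simp [R, e])
  · rintro ⟨φ, a, b, c, d⟩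
    refine ⟨fun x => (φ x.1, x.2), fun ⟨z, i⟩ h => ?_, fun ⟨z, i⟩ h ⟨w, j⟩ k e => ?_, fun ⟨z, i⟩ h ⟨w, j⟩ k ne e => ?_⟩ <;>
      simp only [mem_vs, Prod.mk.injEq] at *
    · exact ⟨a z h.1, h.2.trans (c z h.1)⟩
    · exact ⟨b z h.1 w k.1 e.1, e.2⟩
    · simp only [R, decide_eq_true_eq] at e ⊢
      obtain ⟨rfl, ⟨rfl, e⟩ | ⟨rfl, e⟩⟩ := e
      · simp [e]
      · simpa using d z h.1 w k.1 (by simpa using ne) e

omit [DecidableEq K] in
theorem cross {s : Finset K} {φ : K → K} (a : ∀ z ∈ s, φ z ∈ s) (b : ∀ z ∈ s, ∀ w ∈ s, φ z = φ w → z = w)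
    (P Q : K → Prop) [DecidablePred P] [DecidablePred Q] (c : ∀ z ∈ s, P z → Q (φ z)) (d : ∀ z ∈ s, P z → Q z) :
    #{z ∈ s | Q (φ z) ∧ ¬P z} ≤ #{z ∈ s | Q z ∧ ¬P z} := by
  have e1 : #{z ∈ s | Q (φ z)} ≤ #{z ∈ s | Q z} := card_le_card_of_injOn φ
    (fun z h => by simp at h ⊢; exact ⟨a z h.1, h.2⟩) fun z h w k => b z (by simp at h; exact h.1) w (by simp at k; exact k.1)
  have e2 := card_filter_add_card_filter_not (s := {z ∈ s | Q (φ z)}) P
  have e3 := card_filter_add_card_filter_not (s := {z ∈ s | Q z}) P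
  rw [filter_filter, filter_filter] at e2 e3
  rw [filter_congr (q := P) fun z h => and_iff_right_of_imp (c z h)] at e2
  rw [filter_congr (q := P) fun z h => and_iff_right_of_imp (d z h)] at e3
  omega

end Pool.Agent.H.MP_143e72_lc
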