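import Pool.Agent.H.MP_143e72_lc.A

namespace Pool.Agent.H.MP_143e72_lc

open Pool.Agent.Lib.CX SimpleGraph Finset

abbrev K := ℕ × ℕ × Bool
def ks (n : ℕ) : List K := List.range (n + 1) ×ˢ (List.range (n + 1) ×ˢ [false, true])
def Ed (n : ℕ) (es : List (ℕ × ℕ)) (a b : ℕ) : Prop :=
  (a, b) ∈ es ∨ (b, a) ∈ es ∨ (a = n ∧ b < n) ∨ (b = n ∧ a < n)
instance (n es a b) : Decidable (Ed n es a b) := by unfold Ed; infer_instance
def ho (n : ℕ) (z : K) : ℕ := if z.2.2 = true then (if z.1 = n then 1 else if z.2.1 = n then n else z.2.1 + 1)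
  else if z.1 = n ∨ z.2.1 = n then 0 else z.2.1
def po (n k : ℕ) (z : K) : ℕ :=
  if z.2.2 = true ∧ ((z.2.1 = n ∧ z.1 < n) ∨ (z.1 = n ∧ z.2.1 < k)) then 0 else ho n z
def hr (n : ℕ) (es : List (ℕ × ℕ)) (e : K × K) : Bool :=
  decide (Ed n es e.1.1 e.1.2.1 ∧ e.2 = (e.1.2.1, e.1.1, !e.1.2.2))
def pr (n : ℕ) (es : List (ℕ × ℕ)) (e : K × K) : Bool :=
  decide (Ed n es e.1.1 e.1.2.1 ∧ e.1.2.2 = false ∧ e.2 = (e.1.2.1, e.1.1, false))

theorem mem_ks {n a b i} : (a, b, i) ∈ ks n ↔ a ≤ n ∧ b ≤ n := by cases i <;> simp [ks]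

theorem perm {n k : ℕ} {S : Finset ℕ} (h : #S ≤ k) : ∃ p : ℕ → ℕ, (∀ b ≤ n, p b ≤ n) ∧
    (∀ b ≤ n, ∀ c ≤ n, p b = p c → b = c) ∧ ∀ b ≤ n, k ≤ b → p b ∉ S := by
  have e := List.filter_append_perm (fun x => decide (x ∈ S)) (List.range (n + 1))
  have l : (List.filter (fun x => decide (x ∈ S)) (List.range (n + 1))).length ≤ k := by
    rw [← List.toFinset_card_of_nodup (List.nodup_range.filter _)]
    exact (card_le_card fun x hx => by simp at hx; exact hx.2).trans h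
  have m : ∀ x ∈ List.filter (fun x => !decide (x ∈ S)) (List.range (n + 1)), x ∉ S := by simp
  generalize List.filter _ _ = A, List.filter _ _ = B at *
  have L : (A ++ B).length = n + 1 := by simpa using e.length_eq
  refine ⟨fun b => (A ++ B).getD b 0, fun b hb => ?_, fun b hb c hc h => ?_, fun b hb h => ?_⟩
  · simp only [List.getD_eq_getElem _ _ (by omega : b < (A ++ B).length)]
    simpa [Nat.lt_succ_iff] using e.subset (List.getElem_mem _)
  · simp only [List.getD_eq_getElem _ _ (by omega : b < (A ++ B).length),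
      List.getD_eq_getElem _ _ (by omega : c < (A ++ B).length)] at h
    exact ((e.nodup_iff.2 List.nodup_range).getElem_inj_iff).1 h
  · simp only [List.getD_eq_getElem _ _ (by omega : b < (A ++ B).length)]
    rw [List.getElem_append_right (by omega)]
    exact m _ (List.getElem_mem _)

theorem fwd {n k : ℕ} {es : List (ℕ × ℕ)} (h1 : ∀ e ∈ es, e.1 < e.2 ∧ e.2 < n) {S : Finset ℕ} (s1 : ∀ x ∈ S, x < n)
    (s2 : ∀ e ∈ es, e.1 ∈ S ∨ e.2 ∈ S) (s3 : #S ≤ k) (hk : k ≤ n) : ∃ φ : K → K, (∀ z ∈ ks n, φ z ∈ ks n) ∧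
      (∀ z ∈ ks n, ∀ w ∈ ks n, φ z = φ w → z = w) ∧ (∀ z ∈ ks n, (φ z).1 = z.1 ∧ po n k z ≤ ho n (φ z)) ∧
      ∀ z w, pr n es (z, w) = true → hr n es (φ z, φ w) = true := by
  obtain ⟨p, p1, p2, p3⟩ := perm (n := n) s3
  let c : ℕ → ℕ → Bool := fun a b =>
    decide (if a = n then b ∈ S else if b = n then a ∉ S else a ∈ S ∧ (b ∉ S ∨ a < b))
  let τ : ℕ → ℕ → ℕ := fun a b => if a = n then p b else if a ∈ S then (if b = n then 0 else b + 1) else b
  have t1 : ∀ a, ∀ b ≤ n, τ a b ≤ n := fun a b h => by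
    have := p1 b h
    simp only [τ]; split_ifs <;> omega
  have t2 : ∀ a, ∀ b ≤ n, ∀ d ≤ n, τ a b = τ a d → b = d := fun a b h d h' => by
    simp only [τ]; split_ifs <;> first | exact p2 b h d h' | omega | simp
  refine ⟨fun z => if z.2.2 = true then (z.1, τ z.1 z.2.1, !c z.1 (τ z.1 z.2.1)) else (z.1, z.2.1, c z.1 z.2.1),
    fun ⟨a, b, i⟩ h => ?_, fun ⟨a, b, i⟩ h ⟨a', b', j⟩ h' e => ?_, fun ⟨a, b, i⟩ h => ?_, fun ⟨a, b, i⟩ w h => ?_⟩
  · cases i <;> simp_all [mem_ks]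
  · rw [mem_ks] at h h'
    cases i <;> cases j <;> simp only [if_true, Bool.false_eq_true, if_false, Prod.mk.injEq] at e ⊢ <;>
      obtain ⟨rfl, e, e'⟩ := e
    · simp [e]
    · simp [e] at e'
    · simp [e] at e'
    · simp [t2 a b h.2 b' h'.2 e]
  · rw [mem_ks] at h
    cases i
    · simp only [po, ho, Bool.false_eq_true, if_false, false_and, true_and]
      split_ifs <;> omega
    · have := p3 b h.2
      simp only [po, ho, if_true, true_and, c, τ]
      by_cases e : a = n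
      · by_cases e' : b < k <;> simp [e, e']
        simp [this (by omega)]
      · by_cases e' : a ∈ S <;> by_cases f : b = n <;> simp [e, e', f, show a < n by omega]
        split_ifs <;> omega
  · simp only [pr, decide_eq_true_eq] at h
    obtain ⟨h, rfl, rfl⟩ := h
    simp only [hr, h, Bool.false_eq_true, if_false, true_and, decide_eq_true_eq, Prod.mk.injEq, c]
    rcases h with h | h | ⟨rfl, h⟩ | ⟨rfl, h⟩
    · have k1 := h1 _ h
      have k2 := s2 _ h
      simp only at k1 k2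
      have k3 : a ≠ n := by omega
      have k4 : b ≠ n := by omega
      by_cases k5 : a ∈ S <;> by_cases k6 : b ∈ S <;> simp [k5, k6, k3, k4] at k2 ⊢
      rw [Bool.eq_iff_iff]; simp; omega
    · have k1 := h1 _ h
      have k2 := s2 _ h
      simp only at k1 k2
      have k3 : a ≠ n := by omega
      have k4 : b ≠ n := by omega
      by_cases k5 : a ∈ S <;> by_cases k6 : b ∈ S <;> simp [k5, k6, k3, k4] at k2 ⊢
      rw [Bool.eq_iff_iff]; simp; omega
    · simp [h.ne]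
    · simp [h.ne]

theorem bwd {n k : ℕ} {es : List (ℕ × ℕ)} (h1 : ∀ e ∈ es, e.1 < e.2 ∧ e.2 < n) {φ : K → K}
    (a : ∀ z ∈ ks n, φ z ∈ ks n) (b : ∀ z ∈ ks n, ∀ w ∈ ks n, φ z = φ w → z = w)
    (c : ∀ z ∈ ks n, (φ z).1 = z.1 ∧ po n k z ≤ ho n (φ z))
    (d : ∀ z ∈ ks n, ∀ w ∈ ks n, z ≠ w → pr n es (z, w) = true → hr n es (φ z, φ w) = true ∨ hr n es (φ w, φ z) = true) :
    ∃ S : Finset ℕ, (∀ x ∈ S, x < n) ∧ (∀ e ∈ es, e.1 ∈ S ∨ e.2 ∈ S) ∧ #S ≤ k := by
  have e : ∀ u ≤ n, ∀ v ≤ n, u ≠ v → Ed n es u v → ∃ i, φ (u, v, false) = (u, v, i) ∧ φ (v, u, false) = (v, u, !i) :=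
    fun u hu v hv ne h => by
    have c1 := (c (u, v, false) (mem_ks.2 ⟨hu, hv⟩)).1
    have c2 := (c (v, u, false) (mem_ks.2 ⟨hv, hu⟩)).1
    have := d (u, v, false) (mem_ks.2 ⟨hu, hv⟩) (v, u, false) (mem_ks.2 ⟨hv, hu⟩) (by simp [ne]) (by simp [pr, h])
    generalize φ _ = x, φ (v, u, false) = y at *
    obtain ⟨x1, x2, x3⟩ := x
    obtain ⟨y1, y2, y3⟩ := y
    simp only [hr, decide_eq_true_eq, Prod.mk.injEq] at *
    rcases this with ⟨-, rfl, rfl, rfl⟩ | ⟨-, rfl, rfl, rfl⟩ <;> simp [c1, c2]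
  have x : ∀ u t (T : Finset K), (∀ z ∈ T, z ∈ ks n ∧ z.1 = u ∧ po n k z < t ∧ t ≤ ho n (φ z)) →
      #T ≤ #{z ∈ (ks n).toFinset | z.1 = u ∧ z.2.2 = true ∧ ((z.2.1 = n ∧ z.1 < n) ∨ (z.1 = n ∧ z.2.1 < k))} :=
    fun u t T h => by
    refine ((card_le_card fun z hz => ?_).trans (cross (s := (ks n).toFinset) (φ := φ) (by simpa using a)
      (by simpa using b) (fun z => z.1 = u ∧ t ≤ po n k z) (fun z => z.1 = u ∧ t ≤ ho n z) (fun z hz e => ?_)
      fun z _ e => ⟨e.1, ?_⟩)).trans (card_le_card fun z hz => ?_)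
    · have := h z hz
      have := (c z this.1).1
      simp only [mem_filter, List.mem_toFinset]
      exact ⟨by tauto, by omega, by omega⟩
    · have := c z (by simpa using hz)
      omega
    · have := e.2
      unfold po at this; split_ifs at this <;> omega
    · simp only [mem_filter] at hz ⊢
      refine ⟨hz.1, hz.2.1.1, ?_⟩
      by_contra q
      exact hz.2.2 (by rw [po, if_neg q]; exact hz.2.1)
  refine ⟨{v ∈ range n | φ (v, n, false) = (v, n, false)}, by simp +contextual, fun ⟨u, v⟩ h => ?_, ?_⟩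
  · have h2 := h1 _ h
    have y : ∀ u < n, ∀ v < n, φ (u, v, false) = (u, v, true) → φ (u, n, false) = (u, n, false) := fun u hu v hv h => by
      obtain ⟨_ | _, e, -⟩ := e u hu.le n le_rfl hu.ne (by simp [Ed, hu])
      · exact e
      have := (x u (v + 1) {(u, v, false), (u, n, false)} (by
        simp [mem_ks, h, e, po, ho, hu.ne, hv.ne, hu.le, hv.le]; omega)).trans
        (card_le_card (t := {(u, n, true)}) fun ⟨z1, z2, z3⟩ hz => by
          simp at hz ⊢; exact ⟨by omega, by omega, by tauto⟩)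
      simp [hv.ne] at this
    simp only [mem_filter, mem_range] at h2 ⊢
    obtain ⟨_ | _, e1, e2⟩ := e u (by omega) v (by omega) (by omega) (.inl h)
    · exact .inr ⟨h2.2, y v h2.2 u (by omega) e2⟩
    · exact .inl ⟨by omega, y u (by omega) v h2.2 e1⟩
  · rw [← card_image_of_injective _ (f := fun v => ((n, v, false) : K)) fun _ _ h => by simpa using h]
    refine (x n 1 _ (forall_mem_image.2 fun v hv => ?_)).trans ((card_le_card
      (t := (range k).image fun v => ((n, v, true) : K)) fun ⟨z1, z2, z3⟩ hz => ?_).trans (card_image_le.trans (by simp)))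
    · simp only [mem_filter, mem_range] at hv
      obtain ⟨i, e1, e2⟩ := e v hv.1.le n le_rfl hv.1.ne (by simp [Ed, hv.1])
      obtain rfl : false = i := by simpa [hv.2] using e1
      simp [mem_ks, e2, po, ho, hv.1.le]
    · simp at hz ⊢; exact ⟨by omega, by omega, by tauto⟩

theorem blk {n : ℕ} {f g : K → ℕ} (hg : ∀ z ∈ ks n, g z ≤ n + 1) {φ : K → K}
    (a : ∀ z ∈ ks n, φ z ∈ ks n) (b : ∀ z ∈ ks n, ∀ w ∈ ks n, φ z = φ w → z = w) :
    (∀ z ∈ ks n, (n + 2) * z.1 + 2 + f z ≤ (n + 2) * (φ z).1 + 2 + g (φ z)) ↔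
      ∀ z ∈ ks n, (φ z).1 = z.1 ∧ f z ≤ g (φ z) := by
  refine ⟨fun h => ?_, fun h z hz => by rw [(h z hz).1]; have := (h z hz).2; omega⟩
  have l : ∀ z ∈ ks n, z.1 ≤ (φ z).1 := fun z hz => by
    have := h z hz
    have := hg _ (a z hz)
    by_contra q
    have := Nat.mul_le_mul_left (n + 2) (not_le.1 q)
    simp only [Nat.mul_succ] at this
    omega
  intro z hz
  have := cross (s := (ks n).toFinset) (φ := φ) (by simpa using a) (by simpa using b) (fun w => z.1 < w.1)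
    (fun w => z.1 < w.1) (fun w hw e => e.trans_le (l w (by simpa using hw))) fun _ _ e => e
  simp only [and_not_self, filter_false, card_empty, nonpos_iff_eq_zero, card_eq_zero, filter_eq_empty_iff] at this
  have e : (φ z).1 = z.1 := by have := this (List.mem_toFinset.2 hz); have := l z hz; omega
  have := h z hz
  rw [e] at this
  exact ⟨e, by omega⟩

end Pool.Agent.H.MP_143e72_lc
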