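import Pool.Agent.H.MP_143e72_lc.B

namespace Pool.Agent.H.MP_143e72_lc

open Pool.Agent.Lib.CX SimpleGraph Finset

def vl (n : ℕ) (f : K → ℕ) (z : K) : ℕ := min ((n + 2) * z.1 + f z) ((n + 2) * n + (n + 1)) + 2

def red (a : List Unit × List (ℕ × ℕ) × ℕ) : Gr × Gr :=
  (ds (ks a.1.length) (vl a.1.length (ho a.1.length)) (hr a.1.length a.2.1),
    ds (ks a.1.length) (vl a.1.length (po a.1.length a.2.2)) (pr a.1.length a.2.1))

theorem pt_ds {α : Type} [Enc α] {n : α → ℕ} {f : α → K → ℕ} {r : α → K × K → Bool} (h1 : PT n) (h2 : PB n)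
    (h3 : PT fun p : α × K => f p.1 p.2) (h4 : PT fun p : α × K × K => r p.1 p.2) :
    PT fun a => ds (ks (n a)) (vl (n a) (f a)) (r a) := by
  have a1 : PT fun a => ks (n a) := by unfold ks; fun_prop
  have a2 : PB fun p : α × K => n p.1 := h2.comp PT.fst'
  have a3 : PT fun p : α × K => vl (n p.1) (f p.1) p.2 := by unfold vl; fun_prop
  have a4 : PB fun p : α × K => vl (n p.1) (f p.1) p.2 := (PB.min_right (by fun_prop)).add (PB.const 2)
  have a5 : PT fun p : α × (K × ℕ) × (K × ℕ) => r p.1 (p.2.1.1, p.2.2.1) :=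
    h4.comp (g := fun p : α × (K × ℕ) × (K × ℕ) => (p.1, p.2.1.1, p.2.2.1)) (by fun_prop)
  refine PT.relGr (PT.flatMap (PT.map (by fun_prop) (PT.range (by fun_prop) (by fun_prop))) a1) ?_
  exact PT.decide_and (i := fun _ => inferInstance) (j := fun _ => inferInstance) (by fun_prop)
    (PT.decide_or (i := fun _ => inferInstance) (j := fun _ => inferInstance) (by fun_prop)
      (PT.decide_and (i := fun _ => inferInstance) (j := fun _ => inferInstance) (by fun_prop) (by simpa using a5)))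

theorem pt_red : PT red :=
  (pt_ds (by fun_prop) (by fun_prop) (by unfold ho; fun_prop) (by unfold hr Ed; fun_prop)).pair
    (pt_ds (by fun_prop) (by fun_prop) (by unfold po ho; fun_prop) (by unfold pr Ed; fun_prop))

theorem red_free (a) : (pathGraph 5).Free (red a).1.G ∧ (pathGraph 5).Free (red a).2.G :=
  ⟨free _ _ _ (fun z => (z.2.1, z.1, !z.2.2)) fun z w h => by simp [hr] at h; simp [h],
    free _ _ _ (fun z => (z.2.1, z.1, false)) fun ⟨a, b, i⟩ w h => by simp [pr] at h; simp [h]⟩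

theorem key (n : List Unit) (es : List (ℕ × ℕ)) (k : ℕ) (h1 : ∀ e ∈ es, e.1 < e.2 ∧ e.2 < n.length)
    (hk : k ≤ n.length) : (∃ S : Finset ℕ, (∀ x ∈ S, x < n.length) ∧ (∀ e ∈ es, e.1 ∈ S ∨ e.2 ∈ S) ∧ #S ≤ k) ↔
      (red (n, es, k)).2.G ⊑ (red (n, es, k)).1.G := by
  refine .trans ?_ (ds_cont _ _ _ _ _ fun z => by simp [vl]).symm
  simp only
  generalize n.length = n at *
  have a1 : ∀ z ∈ ks n, ho n z ≤ n + 1 := fun ⟨a, b, i⟩ h => by
    have := mem_ks.1 h
    simp only [ho]; split_ifs <;> omega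
  have a2 : ∀ z ∈ ks n, po n k z ≤ n + 1 := fun z h => by
    have := a1 z h
    simp only [po]; split_ifs <;> omega
  have a3 : ∀ f : K → ℕ, (∀ z ∈ ks n, f z ≤ n + 1) → ∀ z ∈ ks n, vl n f z = (n + 2) * z.1 + 2 + f z :=
    fun f h ⟨a, b, i⟩ hz => by
    have := h _ hz
    have := Nat.mul_le_mul_left (n + 2) (mem_ks.1 hz).1
    simp only [vl]; omega
  constructor
  · rintro ⟨S, s1, s2, s3⟩
    obtain ⟨φ, a, b, c, d⟩ := fwd h1 s1 s2 s3 hk
    exact ⟨φ, a, b, fun z h => by rw [a3 _ a2 z h, a3 _ a1 _ (a z h)]; exact (blk a1 a b).2 c z h,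
      fun z _ w _ _ h => .inl (d z w h)⟩
  · rintro ⟨φ, a, b, c, d⟩
    exact bwd h1 a b ((blk a1 a b).1 fun z h => by rw [← a3 _ a2 z h, ← a3 _ a1 _ (a z h)]; exact c z h) d

def chk (a : Gr × Gr) (c : List ℕ) : Prop := c.length = a.2.n ∧ c.Nodup ∧ (∀ x ∈ c, x < a.1.n) ∧
  ∀ u ∈ List.range a.2.n, ∀ v ∈ List.range a.2.n, a.2.adjB u v = true → a.1.adjB (c.getD u 0) (c.getD v 0) = true
instance (a c) : Decidable (chk a c) := by unfold chk; infer_instance

theorem inNP : InNP fun a : Gr × Gr => a.2.G ⊑ a.1.G := by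
  refine InNP.of_cert' chk (fun a => a.2.n * (3 * a.1.n + 3) + 2) (by unfold chk; fun_prop) (by fun_prop) ?_ ?_
  · rintro a L ⟨h1, h2, h3, h4⟩
    have e : ∀ u : Fin a.2.n, L.getD u 0 = L[u.1]'(u.2.trans_eq h1.symm) := fun u => List.getD_eq_getElem _ _ _
    exact ⟨⟨⟨fun u => ⟨L.getD u 0, h3 _ (e u ▸ List.getElem_mem _)⟩, fun {u v} h => (Gr.adjB_iff _ _ _).1
      (h4 u (by simp) v (by simp) ((Gr.adjB_iff _ _ _).2 h))⟩, fun u v h => Fin.ext
        (h2.getElem_inj_iff.1 ((e u).symm.trans ((congrArg Fin.val h).trans (e v))))⟩⟩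
  · rintro a ⟨c⟩
    refine ⟨List.ofFn fun u => (c u).1, (size_list_le (B := 3 * a.1.n + 2) ?_).trans (by simp), by simp,
      List.nodup_ofFn.2 fun u v h => c.injective (Fin.ext h), by simp, fun u hu v hv h => ?_⟩
    · simp only [List.forall_mem_ofFn_iff]
      exact fun u => (size_nat_le _).trans (by have := (c u).2; omega)
    · rw [List.mem_range] at hu hv
      simpa [hu, hv] using (Gr.adjB_iff _ _ _).2 (c.toHom.map_rel ((Gr.adjB_iff _ ⟨u, hu⟩ ⟨v, hv⟩).1 h))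

attribute [local irreducible] red in
theorem complete {W : Type} (F : SimpleGraph W) (h : pathGraph 5 ⊑ F) :
    NPComplete fun a : {a : Gr × Gr // F.Free a.1.G ∧ F.Free a.2.G} => a.1.2.G ⊑ a.1.1.G :=
  ⟨inNP.red ⟨fun a => a.1, PT.val PT.id, fun _ => .rfl⟩, NPHard.of_vc
    (fun a => ⟨red a, fun k => (red_free a).1 (h.trans k), fun k => (red_free a).2 (h.trans k)⟩) (pt_red.subtype _)
    fun n es k h1 _ hk => key n es k h1 hk⟩

end Pool.Agent.H.MP_143e72_lc
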